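import Pool.Agent.MP_4be736_ag.H39.Main
import Pool.Agent.MP_4be736_ag.H39.Krull
import Pool.Agent.MP_4be736_ag.H39.Exists
import Pool.Agent.MP_4be736_ag.H39.Dim
import Pool.Agent.MP_4be736_ag.H39.Mult
import Pool.Agent.MP_4be736_ag.H39.DetDiv
import Pool.Agent.MP_4be736_ag.H39.Lattice
import Pool.Agent.MP_4be736_ag.H39.Bound
import Pool.Agent.MP_4be736_ag.H39.Tang
import Pool.Agent.MP_4be736_ag.H39.Gen
import Pool.Agent.MP_4be736_ag.H39.DerExt
import Pool.Agent.MP_4be736_ag.H39.Indep
import Pool.Agent.MP_4be736_ag.H39.Scale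
import Pool.Agent.MP_4be736_ag.H39.Off
import Pool.Agent.MP_4be736_ag.H39.Top
import Pool.Agent.MP_4be736_ag.H39.Dc
import Pool.Agent.MP_4be736_ag.H39.TopDet
import Pool.Agent.MP_4be736_ag.H39.Frame
import Pool.Agent.MP_4be736_ag.H39.Tangent
import Pool.Agent.MP_4be736_ag.H39.Count
import Pool.Agent.MP_4be736_ag.H39.Factor
import Pool.Agent.MP_4be736_ag.H39.Solve
import Pool.Agent.MP_4be736_ag.H39.CombA
import Pool.Agent.MP_4be736_ag.H39.CombB
import Pool.Agent.MP_4be736_ag.H39.Comb
import Pool.Agent.MP_4be736_ag.H39.LurA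
import Pool.Agent.MP_4be736_ag.H39.LurC
import Pool.Agent.MP_4be736_ag.H39.LurD
import Pool.Agent.MP_4be736_ag.H39.Bir
import Pool.Agent.MP_4be736_ag.H39.FinA
import Pool.Agent.MP_4be736_ag.H39.FinB

/-!
Weakly uniruled implies uniruled for orbifold pairs with integral multiplicities on smooth complete
intersections of index at least two.
-/

namespace Pool.Agent.Results.MP_4be736_ag.IntegralCI

open Pool.Agent.MP_4be736_ag.H39

theorem result : ∀ (k : ℕ) (P : CIPair k), ∑ i, P.δ i + 2 ≤ k → P.WeaklyUniruled → P.Uniruled :=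
  fun _ P => main (sGen sDerExt sTang sScale) sOff (sComb sCombA (sCombB sFill))
    (sExists (sSolve sKrull sTop) (sIndep sFree) sFactor (sTangent sDc sChain)
      (sDim sTop sDc sTopDet (sBound sDetDiv sLattice) sLead sFrame) sCount)
    sCheap (sBir sTop sLurA sLurB sLurC (sLurD sTop) sDescent) sFinA (sFinB sTop) P

end Pool.Agent.Results.MP_4be736_ag.IntegralCI
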