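import Mathlib
import Pool.Agent.MP_4be736_ag.H94.Dehom

/-!
A weakly uniruled orbifold pair on the projective plane which is not uniruled:
`D = (1/17) (L_0 + ... + L_49)`, `L_a = {x + a y + a^2 z = 0}`, multiplicities `17/16`.
-/

open MvPolynomial
open scoped ENNReal

namespace Pool.Agent.Results.MP_4be736_ag.NotUniruled

/-- Complex projective space with `k` homogeneous coordinates (dimension `k - 1`). -/
abbrev PP (k : ℕ) : Type := Projectivization ℂ (Fin k → ℂ)

/-- An orbifold pair on projective space: `D = ∑ c_j {G_j = 0}`, with distinct prime divisors of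
degrees `d_j`, simple normal crossings (Jacobian criterion), rational `c_j ∈ (0,1]`. -/
structure Pair (k : ℕ) where
  r : ℕ
  G : Fin r → MvPolynomial (Fin k) ℂ
  d : Fin r → ℕ
  c : Fin r → ℚ
  homog : ∀ j, (G j).IsHomogeneous (d j)
  irred : ∀ j, Irreducible (G j)
  distinct : ∀ i j, Associated (G i) (G j) → i = j
  snc : ∀ x : PP k, LinearIndependent ℂ
    (fun j : {j // eval x.rep (G j) = 0} => fun i => eval x.rep (pderiv i (G j)))
  c_pos : ∀ j, 0 < c j
  c_le : ∀ j, c j ≤ 1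

/-- A morphism from the projective line, given by binary forms of degree `e` without common
zero, which is birational onto its image (injective off a finite set). -/
structure RatCurve (k : ℕ) where
  e : ℕ
  F : Fin k → MvPolynomial (Fin 2) ℂ
  homog : ∀ i, (F i).IsHomogeneous e
  ne : ∀ a : PP 2, (fun i => eval a.rep (F i)) ≠ 0
  bir : ∃ S : Set (PP 2), S.Finite ∧
    Set.InjOn (fun a : PP 2 => Projectivization.mk ℂ (fun i => eval a.rep (F i)) (ne a)) Sᶜ

/-- The point `f(a)`. -/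
noncomputable def pt {k : ℕ} (f : RatCurve k) (a : PP 2) : PP k :=
  Projectivization.mk ℂ (fun i => eval a.rep (f.F i)) (f.ne a)

/-- `t_{a,j}`: the order of `a` in `f^* D_j`. -/
noncomputable def ord {k : ℕ} (P : Pair k) (f : RatCurve k) (a : PP 2) (j : Fin P.r) : ℕ :=
  multiplicity (C (a.rep 1) * X 0 - C (a.rep 0) * X 1) (aeval f.F (P.G j))

/-- `m_j = 1 / (1 - c_j) ∈ (1, ∞]`. -/
noncomputable def mult {k : ℕ} (P : Pair k) (j : Fin P.r) : ℝ≥0∞ :=
  (1 - ENNReal.ofReal (P.c j))⁻¹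

/-- The formula of the problem file: `min_j t_{a,j} m_j`. -/
noncomputable def mMin {k : ℕ} (P : Pair k) (f : RatCurve k) (a : PP 2) : ℝ≥0∞ :=
  ⨅ (j : Fin P.r) (_ : eval (pt f a).rep (P.G j) = 0), (ord P f a j : ℝ≥0∞) * mult P j

/-- The smallest multiplicity making `f` an orbifold morphism: `max (1, max_j m_j / t_{a,j})`. -/
noncomputable def mMax {k : ℕ} (P : Pair k) (f : RatCurve k) (a : PP 2) : ℝ≥0∞ :=
  max 1 (⨆ (j : Fin P.r) (_ : eval (pt f a).rep (P.G j) = 0), mult P j / (ord P f a j : ℝ≥0∞))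

/-- `Q` holds outside a countable union of proper Zariski-closed subsets. -/
def General {k : ℕ} (Q : PP k → Prop) : Prop :=
  ∃ Z : ℕ → Set (PP k),
    (∀ i, Z i ≠ Set.univ ∧ ∃ S : Set (MvPolynomial (Fin k) ℂ),
      (∀ g ∈ S, ∃ n, g.IsHomogeneous n) ∧ Z i = {x | ∀ g ∈ S, eval x.rep g = 0}) ∧
    ∀ x, (∀ i, x ∉ Z i) → Q x

/-- Through a general point passes a rational curve `C` with `(K + D) . C < 0`. -/
def WeaklyUniruled {k : ℕ} (P : Pair k) : Prop :=
  General fun x : PP k => ∃ f : RatCurve k, x ∈ Set.range (pt f) ∧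
    (-(k : ℚ) + ∑ j, P.c j * P.d j) * f.e < 0

/-- Through a general point passes `f` with image not inside `Supp D` and
`deg D_C = ∑ (1 - 1 / m(f,a)) < 2`. -/
def Uniruled {k : ℕ} (P : Pair k) (m : RatCurve k → PP 2 → ℝ≥0∞) : Prop :=
  General fun x : PP k => ∃ f : RatCurve k, x ∈ Set.range (pt f) ∧
    (∃ a, ∀ j, eval (pt f a).rep (P.G j) ≠ 0) ∧
    ∑' a : {a : PP 2 // ∃ j, eval (pt f a).rep (P.G j) = 0}, (1 - (m f a)⁻¹) < 2

open Pool.Agent.MP_4be736_ag.H94

theorem cast_inj {i j : Fin 50} (h : ((i : ℕ) : ℂ) = ((j : ℕ) : ℂ)) : i = j :=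
  Fin.ext (Nat.cast_injective (R := ℂ) h)

theorem rep_ne (x : PP 3) : ¬ (x.rep 0 = 0 ∧ x.rep 1 = 0 ∧ x.rep 2 = 0) := by
  rintro ⟨h0, h1, h2⟩
  apply x.rep_nonzero
  funext i
  fin_cases i
  exacts [h0, h1, h2]

/-- The example. -/
noncomputable def ex : Pair 3 where
  r := 50
  G := fun j => ln (j : ℕ)
  d := fun _ => 1
  c := fun _ => 1 / 17
  homog := fun _ => ln_hom _
  irred := fun _ => ln_irred _
  distinct := by
    rintro i j ⟨u, hu⟩
    have h1 := congrArg (eval ![-((i : ℕ) : ℂ), 1, 0]) hu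
    rw [map_mul, ln_eval, ln_eval] at h1
    simp at h1
    apply cast_inj
    linear_combination h1
  snc := by
    classical
    intro x
    rw [linearIndependent_iff']
    intro s g hs i hi
    obtain ⟨b, hb1, hb2⟩ : ∃ b : ℂ, ((i.1 : ℕ) : ℂ) ≠ b ∧
        ∀ k : {j : Fin 50 // eval x.rep (ln (j : ℕ)) = 0}, k ≠ i → ((k.1 : ℕ) : ℂ) = b := by
      by_cases hex : ∃ k : {j : Fin 50 // eval x.rep (ln (j : ℕ)) = 0}, k ≠ i
      · obtain ⟨k, hk⟩ := hex
        have hik : ((i.1 : ℕ) : ℂ) ≠ ((k.1 : ℕ) : ℂ) := fun h => hk (Subtype.ext (cast_inj h)).symm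
        refine ⟨((k.1 : ℕ) : ℂ), hik, fun k' hk' => ?_⟩
        by_contra hne
        have hik' : ((i.1 : ℕ) : ℂ) ≠ ((k'.1 : ℕ) : ℂ) :=
          fun h => hk' (Subtype.ext (cast_inj h)).symm
        have := two_roots {((i.1 : ℕ) : ℂ), ((k.1 : ℕ) : ℂ), ((k'.1 : ℕ) : ℂ)} _ _ _ (rep_ne x) (by
          intro a ha
          simp only [Finset.mem_insert, Finset.mem_singleton] at ha
          rcases ha with rfl | rfl | rfl
          · rw [← ln_eval]; exact i.2
          · rw [← ln_eval]; exact k.2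
          · rw [← ln_eval]; exact k'.2)
        rw [Finset.card_eq_three.2 ⟨_, _, _, hik, hik', Ne.symm hne, rfl⟩] at this
        omega
      · exact ⟨((i.1 : ℕ) : ℂ) + 1, by simp, fun k hk => (hex ⟨k, hk⟩).elim⟩
    have h0 := congrFun hs 0
    have h1 := congrFun hs 1
    simp only [Finset.sum_apply, Pi.smul_apply, ln_pderiv, smul_eq_mul, Pi.zero_apply] at h0 h1
    have h2 : ∑ k ∈ s, g k * (((k.1 : ℕ) : ℂ) - b) = 0 := by
      have : ∑ k ∈ s, g k * (((k.1 : ℕ) : ℂ) - b) =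
          ∑ k ∈ s, g k * ((k.1 : ℕ) : ℂ) ^ ((1 : Fin 3) : ℕ) -
            b * ∑ k ∈ s, g k * ((k.1 : ℕ) : ℂ) ^ ((0 : Fin 3) : ℕ) := by
        rw [Finset.mul_sum, ← Finset.sum_sub_distrib]
        refine Finset.sum_congr rfl fun k _ => ?_
        simp
        ring
      rw [this, h0, h1]; simp
    rw [Finset.sum_eq_single i (fun k _ hk => by rw [hb2 k hk]; simp) (fun h => (h hi).elim)] at h2
    exact (mul_eq_zero.1 h2).resolve_right (sub_ne_zero.2 hb1)
  c_pos := fun _ => by norm_num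
  c_le := fun _ => by norm_num

theorem weak : WeaklyUniruled ex := by
  classical
  refine ⟨fun _ => ∅, fun _ => ⟨?_, {1}, ?_, ?_⟩, fun x _ => ?_⟩
  · intro h
    have h' : (∅ : Set (PP 3)) = Set.univ := h
    have : (Projectivization.mk ℂ (1 : Fin 3 → ℂ) one_ne_zero) ∈ (∅ : Set (PP 3)) := by
      rw [h']; trivial
    exact this
  · intro g hg
    rw [Set.mem_singleton_iff.1 hg]
    exact ⟨0, isHomogeneous_one _ _⟩
  · ext x; simp
  · obtain ⟨i, hi⟩ : ∃ i, x.rep i ≠ 0 := Function.ne_iff.1 x.rep_nonzero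
    obtain ⟨i', hi'⟩ := exists_ne i
    set y : Fin 3 → ℂ := Pi.single i' 1 with hy
    have hind : ∀ s t : ℂ, (∀ l, x.rep l * s + y l * t = 0) → s = 0 ∧ t = 0 := by
      intro s t h
      have h1 := h i
      have h2 := h i'
      rw [hy, Pi.single_eq_of_ne hi'.symm] at h1
      have hs : s = 0 := by simpa [hi] using h1
      rw [hy, hs] at h2
      exact ⟨hs, by simpa using h2⟩
    have hne : ∀ a : PP 2,
        (fun l => eval a.rep (C (x.rep l) * X 0 + C (y l) * X 1 : MvPolynomial (Fin 2) ℂ)) ≠ 0 := by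
      intro a h
      obtain ⟨h0, h1⟩ := hind (a.rep 0) (a.rep 1) fun l => by simpa using congrFun h l
      apply a.rep_nonzero
      funext l
      fin_cases l
      exacts [h0, h1]
    let f : RatCurve 3 :=
      { e := 1
        F := fun l => C (x.rep l) * X 0 + C (y l) * X 1
        homog := fun l => (isHomogeneous_C_mul_X _ _).add (isHomogeneous_C_mul_X _ _)
        ne := hne
        bir := by
          refine ⟨∅, Set.finite_empty, fun a _ b _ hab => ?_⟩
          obtain ⟨u, hu⟩ := (Projectivization.mk_eq_mk_iff' ℂ _ _ _ _).1 hab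
          obtain ⟨h0, h1⟩ := hind (u * b.rep 0 - a.rep 0) (u * b.rep 1 - a.rep 1) fun l => by
            have := congrFun hu l
            simp only [Pi.smul_apply, map_add, map_mul, eval_C, eval_X, smul_eq_mul] at this
            linear_combination this
          rw [← a.mk_rep, ← b.mk_rep, Projectivization.mk_eq_mk_iff']
          refine ⟨u, ?_⟩
          funext l
          fin_cases l
          · exact sub_eq_zero.1 h0
          · exact sub_eq_zero.1 h1 }
    refine ⟨f, ?_, ?_⟩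
    · have h10 : (![1, 0] : Fin 2 → ℂ) ≠ 0 := by intro h; simpa using congrFun h 0
      refine ⟨Projectivization.mk ℂ _ h10, ?_⟩
      obtain ⟨u, hu⟩ := Projectivization.exists_smul_eq_mk_rep ℂ _ h10
      rw [pt, ← x.mk_rep, Projectivization.mk_eq_mk_iff']
      refine ⟨u, ?_⟩
      funext l
      simp only [f, ← hu]
      simp [Units.smul_def, mul_comm]
    · change (-((3 : ℕ) : ℚ) + ∑ _j : Fin 50, (1 / 17 : ℚ) * ((1 : ℕ) : ℚ)) * ((1 : ℕ) : ℚ) < 0
      simp
      norm_num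

/-- The affine point `(s : 1)`. -/
noncomputable def aff (s : ℂ) : PP 2 :=
  Projectivization.mk ℂ ![s, 1] (by intro h; simpa using congrFun h 1)

theorem aff_inj : Function.Injective aff := by
  intro s t h
  obtain ⟨u, hu⟩ := (Projectivization.mk_eq_mk_iff' ℂ _ _ _ _).1 h
  have h0 := congrFun hu 0
  have h1 := congrFun hu 1
  simp at h0 h1
  rw [h1, one_mul] at h0
  exact h0.symm

theorem e_pos (f : RatCurve 3) : 1 ≤ f.e := by
  by_contra h
  have h0 : f.e = 0 := by omega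
  obtain ⟨S, hS, hinj⟩ := f.bir
  have : Infinite (PP 2) := Infinite.of_injective aff aff_inj
  obtain ⟨a, ha, b, hb, hab⟩ := hS.infinite_compl.nontrivial
  apply hab
  apply hinj ha hb
  have : ∀ i, ∃ c : ℂ, f.F i = C c := by
    intro i
    have h1 := f.homog i
    rw [h0, ← totalDegree_zero_iff_isHomogeneous, totalDegree_eq_zero_iff_eq_C] at h1
    exact ⟨_, h1⟩
  choose c hc using this
  simp only [hc, eval_C]

theorem pt_rep (f : RatCurve 3) (a : PP 2) :
    ∃ κ : ℂ, κ ≠ 0 ∧ ∀ i, (pt f a).rep i = κ * eval a.rep (f.F i) := by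
  obtain ⟨u, hu⟩ := Projectivization.exists_smul_eq_mk_rep ℂ _ (f.ne a)
  refine ⟨u, u.ne_zero, fun i => ?_⟩
  rw [pt, ← hu]
  simp [Units.smul_def]

theorem on_iff (f : RatCurve 3) (a : PP 2) (b : ℂ) :
    eval (pt f a).rep (ln b) = 0 ↔ eval a.rep (aeval f.F (ln b)) = 0 := by
  obtain ⟨κ, hκ, h⟩ := pt_rep f a
  rw [ln_eval, ln_aeval, h 0, h 1, h 2]
  simp only [map_add, map_mul, eval_C]
  constructor
  · intro h1
    apply mul_left_cancel₀ hκ
    linear_combination h1
  · intro h1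
    linear_combination κ * h1

theorem aff_rep (s : ℂ) : ∃ κ : ℂ, κ ≠ 0 ∧ (aff s).rep = κ • ![s, 1] := by
  obtain ⟨u, hu⟩ := Projectivization.exists_smul_eq_mk_rep ℂ (![s, 1] : Fin 2 → ℂ)
    (by intro h; simpa using congrFun h 1)
  exact ⟨u, u.ne_zero, hu.symm⟩

theorem lnh (f : RatCurve 3) (b : ℂ) : (aeval f.F (ln b)).IsHomogeneous f.e := by
  simpa using (ln_hom b).aeval f.F f.homog

theorem on_aff (f : RatCurve 3) (s b : ℂ) :
    eval (pt f (aff s)).rep (ln b) = 0 ↔ (deh (aeval f.F (ln b))).eval s = 0 := by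
  obtain ⟨κ, hκ, h⟩ := aff_rep s
  rw [on_iff, h, eval_smul_hom (lnh f b), deh_eval]
  simp [hκ]

theorem mult_ex (j : Fin ex.r) : 1 - (mult ex j)⁻¹ = 1 / 17 := by
  have h : ENNReal.ofReal (((1 / 17 : ℚ)) : ℝ) = 1 / 17 := by
    rw [show (((1 / 17 : ℚ)) : ℝ) = 1 / 17 by norm_num,
      ENNReal.ofReal_div_of_pos (by norm_num)]
    simp
  change 1 - ((1 - ENNReal.ofReal (((1 / 17 : ℚ)) : ℝ))⁻¹)⁻¹ = 1 / 17
  rw [inv_inv, h]
  apply ENNReal.sub_sub_cancel ENNReal.one_ne_top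
  norm_num

theorem not_uniruled (m : RatCurve 3 → PP 2 → ℝ≥0∞)
    (hm : ∀ (f : RatCurve 3) (s : ℂ) (j : Fin 50), eval (pt f (aff s)).rep (ln (j : ℕ)) = 0 →
      ord ex f (aff s) j = 1 → mult ex j ≤ m f (aff s)) : ¬ Uniruled ex m := by
  classical
  rintro ⟨Z, hZ, hQ⟩
  have : ∀ i, ∃ g : MvPolynomial (Fin 3) ℂ, g ≠ 0 ∧ (∃ n, g.IsHomogeneous n) ∧
      ∀ x ∈ Z i, eval x.rep g = 0 := by
    intro i
    obtain ⟨h1, S, h2, h3⟩ := hZ i
    obtain ⟨x, hx⟩ := (Set.ne_univ_iff_exists_notMem _).1 h1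
    rw [h3] at hx
    simp only [Set.mem_ofPred_eq, not_forall] at hx
    obtain ⟨g, hg, hgx⟩ := hx
    refine ⟨g, ?_, h2 g hg, fun y hy => ?_⟩
    · rintro rfl; simp at hgx
    · rw [h3] at hy; exact hy g hg
  choose G hG0 hGh hGz using this
  obtain ⟨x, hx1, hx2, hx3⟩ := good_point G hG0
  have hx0 : x ≠ 0 := by
    rintro rfl
    simp at hx2
  obtain ⟨u, hu⟩ := Projectivization.exists_smul_eq_mk_rep ℂ x hx0
  obtain ⟨f, ⟨a, ha⟩, ⟨a', ha'⟩, hsum⟩ := hQ (Projectivization.mk ℂ x hx0) (by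
    intro i hi
    have h1 := hGz i _ hi
    obtain ⟨n, hn⟩ := hGh i
    rw [← hu, Units.smul_def, eval_smul_hom hn] at h1
    simp [hx1 i] at h1)
  obtain ⟨κ, hκ, hrep⟩ := pt_rep f a
  rw [ha, ← hu] at hrep
  obtain ⟨S, hS1, hS2⟩ := key f.F f.e (e_pos f) f.homog
    (by
      intro v hv h
      obtain ⟨w, hw⟩ := Projectivization.exists_smul_eq_mk_rep ℂ v hv
      apply f.ne (Projectivization.mk ℂ v hv)
      funext i
      have := congrFun h i
      simp only [Pi.zero_apply] at this ⊢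
      rw [← hw, Units.smul_def, eval_smul_hom (f.homog i), this, mul_zero])
    (by
      intro j h
      apply ha' j
      change eval (pt f a').rep (ln (j : ℕ)) = 0
      rw [on_iff, h, map_zero])
    x a.rep ((u : ℂ)⁻¹ * κ)
    (by
      intro i
      have := hrep i
      simp only [Units.smul_def, Pi.smul_apply, smul_eq_mul] at this
      rw [mul_assoc, ← this, ← mul_assoc, inv_mul_cancel₀ u.ne_zero, one_mul])
    hx2 hx3
  have hon : ∀ s ∈ S, ∃ j : Fin 50, eval (pt f (aff s)).rep (ln (j : ℕ)) = 0 ∧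
      ord ex f (aff s) j = 1 := by
    intro s hs
    obtain ⟨j, hj⟩ := hS2 s hs
    refine ⟨j, ?_, ?_⟩
    · rw [on_aff]
      have h0 : deh (aeval f.F (ln (j : ℕ))) ≠ 0 := by
        intro h0; rw [h0] at hj; simp at hj
      exact (Polynomial.rootMultiplicity_pos h0).1 (by omega)
    · obtain ⟨κ', hκ', h⟩ := aff_rep s
      have := mult_eq_one (e_pos f) (lnh f (j : ℕ)) s κ' hκ' hj
      simp only [ord, h]
      simpa [ex] using this
  let ι : {s // s ∈ S} → {a : PP 2 // ∃ j, eval (pt f a).rep (ex.G j) = 0} :=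
    fun s => ⟨aff s.1, (hon s.1 s.2).imp fun _ h => h.1⟩
  have hι : Function.Injective ι := fun s t h =>
    Subtype.ext (aff_inj (congrArg Subtype.val h))
  have h1 := ENNReal.tsum_comp_le_tsum_of_injective hι
    (fun a : {a : PP 2 // ∃ j, eval (pt f a).rep (ex.G j) = 0} => 1 - (m f a)⁻¹)
  have h2 : ∑' s : {s // s ∈ S}, (1 / 17 : ℝ≥0∞) ≤ ∑' s : {s // s ∈ S}, (1 - (m f (ι s))⁻¹) := by
    refine ENNReal.tsum_le_tsum fun s => ?_
    obtain ⟨j, hj1, hj2⟩ := hon s.1 s.2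
    rw [← mult_ex j]
    exact tsub_le_tsub_left (ENNReal.inv_le_inv.2 (hm f s.1 j hj1 hj2)) _
  have h3 : (2 : ℝ≥0∞) ≤ ∑' s : {s // s ∈ S}, (1 / 17 : ℝ≥0∞) := by
    rw [tsum_fintype]
    simp only [Finset.sum_const, Finset.card_univ, Fintype.card_coe, nsmul_eq_mul]
    calc (2 : ℝ≥0∞) = 34 * (1 / 17) := by
          rw [show (34 : ℝ≥0∞) = 2 * 17 by norm_num, mul_assoc, one_div,
            ENNReal.mul_inv_cancel (by norm_num) (by norm_num), mul_one]
      _ ≤ S.card * (1 / 17) := by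
          gcongr
          exact_mod_cast hS1
  exact absurd hsum (not_lt.2 (h3.trans (h2.trans h1)))

theorem result :
    ∃ P : Pair 3, WeaklyUniruled P ∧ ¬ Uniruled P (mMin P) ∧ ¬ Uniruled P (mMax P) := by
  refine ⟨ex, weak, not_uniruled _ ?_, not_uniruled _ ?_⟩
  · intro f s j _ _
    refine le_iInf₂ fun i hi => ?_
    have h1 : 1 ≤ ord ex f (aff s) i := by
      obtain ⟨κ, hκ, h⟩ := aff_rep s
      have h2 := lin_dvd (e_pos f) (lnh f ((i : Fin 50) : ℕ)) s κ hκ ((on_aff f s _).1 hi)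
      have h3 := dvd_iff_multiplicity_pos.2 h2
      simp only [ord, h]
      simpa [ex] using Nat.succ_le_of_lt h3
    have h2 : (1 : ℝ≥0∞) ≤ (ord ex f (aff s) i : ℝ≥0∞) := by exact_mod_cast h1
    calc mult ex j = 1 * mult ex i := by rw [one_mul]; rfl
      _ ≤ _ := by gcongr
  · intro f s j h1 h2
    refine le_max_of_le_right (le_iSup₂_of_le j h1 ?_)
    rw [h2]
    simp

end Pool.Agent.Results.MP_4be736_ag.NotUniruled
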