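import Mathlib
import Pool.Agent.Results.MP_4be736_ag.NotUniruled

/-!
Integral multiplicities, formula of the problem file: `D = (1/2) (L_0 + ... + L_4)` on the
projective plane, `L_a = {x + a y + a^2 z = 0}`, all multiplicities equal to `2`.
-/

open MvPolynomial
open scoped ENNReal

namespace Pool.Agent.Results.MP_4be736_ag.IntegralMin

open Pool.Agent.MP_4be736_ag.H94 Pool.Agent.Results.MP_4be736_ag.NotUniruled

theorem cinj {i j : Fin 5} (h : ((i : ℕ) : ℂ) = ((j : ℕ) : ℂ)) : i = j :=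
  Fin.ext (Nat.cast_injective (R := ℂ) h)

theorem three (x : PP 3) {i j k : Fin 5} (hij : i ≠ j) (hik : i ≠ k) (hjk : j ≠ k)
    (hi : eval x.rep (ln (i : ℕ)) = 0) (hj : eval x.rep (ln (j : ℕ)) = 0)
    (hk : eval x.rep (ln (k : ℕ)) = 0) : False := by
  classical
  have := two_roots {((i : ℕ) : ℂ), ((j : ℕ) : ℂ), ((k : ℕ) : ℂ)} _ _ _ (rep_ne x) (by
    intro a ha
    simp only [Finset.mem_insert, Finset.mem_singleton] at ha
    rcases ha with rfl | rfl | rfl
    · rw [← ln_eval]; exact hi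
    · rw [← ln_eval]; exact hj
    · rw [← ln_eval]; exact hk)
  rw [Finset.card_eq_three.2 ⟨_, _, _, fun h => hij (cinj h), fun h => hik (cinj h),
    fun h => hjk (cinj h), rfl⟩] at this
  omega

/-- The example. -/
noncomputable def ex5 : Pair 3 where
  r := 5
  G := fun j => ln (j : ℕ)
  d := fun _ => 1
  c := fun _ => 1 / 2
  homog := fun _ => ln_hom _
  irred := fun _ => ln_irred _
  distinct := by
    rintro i j ⟨u, hu⟩
    have h1 := congrArg (eval ![-((i : ℕ) : ℂ), 1, 0]) hu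
    rw [map_mul, ln_eval, ln_eval] at h1
    simp at h1
    apply cinj
    linear_combination h1
  snc := by
    classical
    intro x
    rw [linearIndependent_iff']
    intro s g hs i hi
    obtain ⟨b, hb1, hb2⟩ : ∃ b : ℂ, ((i.1 : ℕ) : ℂ) ≠ b ∧
        ∀ k : {j : Fin 5 // eval x.rep (ln (j : ℕ)) = 0}, k ≠ i → ((k.1 : ℕ) : ℂ) = b := by
      by_cases hex : ∃ k : {j : Fin 5 // eval x.rep (ln (j : ℕ)) = 0}, k ≠ i
      · obtain ⟨k, hk⟩ := hex
        refine ⟨((k.1 : ℕ) : ℂ), fun h => hk (Subtype.ext (cinj h)).symm, fun k' hk' => ?_⟩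
        by_contra hne
        exact three x (fun h => hk (Subtype.ext h).symm) (fun h => hk' (Subtype.ext h).symm)
          (fun h => hne (by rw [h])) i.2 k.2 k'.2
      · exact ⟨((i.1 : ℕ) : ℂ) + 1, by simp, fun k hk => (hex ⟨k, hk⟩).elim⟩
    have h0 := congrFun hs 0
    have h1 := congrFun hs 1
    simp only [Finset.sum_apply, Pi.smul_apply, ln_pderiv, smul_eq_mul, Pi.zero_apply] at h0 h1
    have h2 : ∑ k ∈ s, g k * (((k.1 : ℕ) : ℂ) - b) = 0 := by
      have : ∑ k ∈ s, g k * (((k.1 : ℕ) : ℂ) - b) =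
          ∑ k ∈ s, g k * ((k.1 : ℕ) : ℂ) ^ ((1 : Fin 3) : ℕ) -
            b * ∑ k ∈ s, g k * ((k.1 : ℕ) : ℂ) ^ ((0 : Fin 3) : ℕ) := by
        rw [Finset.mul_sum, ← Finset.sum_sub_distrib]
        refine Finset.sum_congr rfl fun k _ => ?_
        simp
        ring
      rw [this, h0, h1]; simp
    rw [Finset.sum_eq_single i (fun k _ hk => by rw [hb2 k hk]; simp) (fun h => (h hi).elim)] at h2
    exact (mul_eq_zero.1 h2).resolve_right (sub_ne_zero.2 hb1)
  c_pos := fun _ => by norm_num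
  c_le := fun _ => by norm_num

theorem mult_ex5 (j : Fin ex5.r) : mult ex5 j = 2 := by
  have h : ENNReal.ofReal (((1 / 2 : ℚ)) : ℝ) = 2⁻¹ := by
    rw [show (((1 / 2 : ℚ)) : ℝ) = 1 / 2 by norm_num,
      ENNReal.ofReal_div_of_pos (by norm_num)]
    simp
  change (1 - ENNReal.ofReal (((1 / 2 : ℚ)) : ℝ))⁻¹ = 2
  rw [h, ENNReal.one_sub_inv_two, inv_inv]

theorem weak5 : WeaklyUniruled ex5 := by
  obtain ⟨Z, hZ, hQ⟩ := weak
  refine ⟨Z, hZ, fun x hx => ?_⟩
  obtain ⟨f, hf, -⟩ := hQ x hx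
  refine ⟨f, hf, ?_⟩
  have h1 : (0 : ℚ) < f.e := by exact_mod_cast e_pos f
  refine mul_neg_of_neg_of_pos ?_ h1
  change -((3 : ℕ) : ℚ) + ∑ _j : Fin 5, (1 / 2 : ℚ) * ((1 : ℕ) : ℚ) < 0
  simp
  norm_num

/-- The point at infinity. -/
noncomputable def inf : PP 2 :=
  Projectivization.mk ℂ ![1, 0] (by intro h; simpa using congrFun h 0)

theorem inf_rep : ∃ κ : ℂ, κ ≠ 0 ∧ inf.rep = κ • ![1, 0] := by
  obtain ⟨u, hu⟩ := Projectivization.exists_smul_eq_mk_rep ℂ (![1, 0] : Fin 2 → ℂ)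
    (by intro h; simpa using congrFun h 0)
  exact ⟨u, u.ne_zero, hu.symm⟩

theorem cases_pt (a : PP 2) : a = inf ∨ ∃ s, a = aff s := by
  by_cases h : a.rep 1 = 0
  · left
    rw [← a.mk_rep, inf, Projectivization.mk_eq_mk_iff']
    refine ⟨a.rep 0, ?_⟩
    funext i
    fin_cases i <;> simp [h]
  · right
    refine ⟨a.rep 0 / a.rep 1, ?_⟩
    rw [← a.mk_rep, aff, Projectivization.mk_eq_mk_iff']
    refine ⟨a.rep 1, ?_⟩
    funext i
    fin_cases i
    · simp; field_simp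
    · simp

theorem aff_ne_inf (s : ℂ) : aff s ≠ inf := by
  intro h
  obtain ⟨u, hu⟩ := (Projectivization.mk_eq_mk_iff' ℂ _ _ _ _).1 h
  simpa using congrFun hu 1

variable {q q' : MvPolynomial (Fin 2) ℂ} {e : ℕ}

theorem z_aff (hq : q.IsHomogeneous e) (s : ℂ) :
    eval (aff s).rep q = 0 ↔ (deh q).eval s = 0 := by
  obtain ⟨κ, hκ, h⟩ := aff_rep s
  rw [h, eval_smul_hom hq, deh_eval]
  simp [hκ]

theorem z_inf (hq : q.IsHomogeneous e) : eval inf.rep q = 0 ↔ (deh q).coeff e = 0 := by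
  obtain ⟨κ, hκ, h⟩ := inf_rep
  rw [h, eval_smul_hom hq, deh_coeff hq]
  simp [hκ]

theorem exists_zero (he : 1 ≤ e) (hq : q.IsHomogeneous e) : ∃ a : PP 2, eval a.rep q = 0 := by
  by_cases h : (deh q).coeff e = 0
  · exact ⟨inf, (z_inf hq).2 h⟩
  · have h1 := Polynomial.le_degree_of_ne_zero h
    obtain ⟨s, hs⟩ := IsAlgClosed.exists_root (deh q) (by
      intro h0
      rw [h0] at h1
      have : e ≤ 0 := by exact_mod_cast h1
      omega)
    exact ⟨aff s, (z_aff hq s).2 hs⟩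

theorem lin_dvd' (he : 1 ≤ e) (hq : q.IsHomogeneous e) (a : PP 2) (h : eval a.rep q = 0) :
    (C (a.rep 1) * X 0 - C (a.rep 0) * X 1 : MvPolynomial (Fin 2) ℂ) ∣ q := by
  rcases cases_pt a with rfl | ⟨s, rfl⟩
  · have h1 := (z_inf hq).1 h
    obtain ⟨κ, hκ, hr⟩ := inf_rep
    obtain ⟨e', rfl⟩ : ∃ e', e = e' + 1 := ⟨e - 1, by omega⟩
    have h2 : (deh q).natDegree ≤ e' := by
      have h3 := deh_natDegree hq
      rw [Polynomial.natDegree_le_iff_coeff_eq_zero] at h3 ⊢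
      intro N hN
      rcases Nat.lt_or_ge (e' + 1) N with h4 | h4
      · exact h3 N h4
      · rw [show N = e' + 1 by omega]; exact h1
    have h3 := Polynomial.homogenize_mul (deh q) 1 h2 (n := 1) (by simp)
    rw [mul_one, hom_deh hq, Polynomial.homogenize_one, pow_one] at h3
    refine ⟨-C κ⁻¹ * (deh q).homogenize e', ?_⟩
    have : (C κ * C κ⁻¹ : MvPolynomial (Fin 2) ℂ) = 1 := by
      rw [← map_mul, mul_inv_cancel₀ hκ, map_one]
    rw [hr]
    conv_lhs => rw [h3]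
    simp only [Pi.smul_apply, Matrix.cons_val_one, Matrix.cons_val_zero, smul_eq_mul, mul_zero,
      mul_one, map_zero, zero_mul, zero_sub]
    linear_combination (-(deh q).homogenize e' * X 1) * this
  · obtain ⟨κ, hκ, hr⟩ := aff_rep s
    have := lin_dvd he hq s κ hκ ((z_aff hq s).1 h)
    rw [hr]
    simpa using this

theorem shape (hq : q.IsHomogeneous e) (a : PP 2) (h : ∀ b : PP 2, eval b.rep q = 0 → b = a) :
    ∃ c : ℂ, c ≠ 0 ∧ ((a = inf → deh q = Polynomial.C c) ∧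
      ∀ s, a = aff s → deh q = Polynomial.C c * (Polynomial.X - Polynomial.C s) ^ e) := by
  have h0 : deh q ≠ 0 := by
    intro h0
    have h1 := h (aff 0) ((z_aff hq 0).2 (by simp [h0]))
    have h2 := h inf ((z_inf hq).2 (by simp [h0]))
    exact aff_ne_inf 0 (h1.trans h2.symm)
  refine ⟨(deh q).leadingCoeff, Polynomial.leadingCoeff_ne_zero.2 h0, ?_, ?_⟩
  · rintro rfl
    have : (deh q).degree = 0 := by
      by_contra hd
      obtain ⟨s, hs⟩ := IsAlgClosed.exists_root (deh q) hd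
      exact aff_ne_inf s (h _ ((z_aff hq s).2 hs))
    rw [Polynomial.eq_C_of_degree_eq_zero this]
    simp
  · rintro s rfl
    have h1 : (deh q).natDegree = e :=
      Polynomial.natDegree_eq_of_le_of_coeff_ne_zero (deh_natDegree hq)
        fun h1 => aff_ne_inf s (h _ ((z_inf hq).2 h1)).symm
    have h2 : (deh q).roots = Multiset.replicate e s := by
      rw [Multiset.eq_replicate]
      refine ⟨by rw [← h1]; exact IsAlgClosed.card_roots_eq_natDegree, fun b hb => ?_⟩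
      exact aff_inj (h _ ((z_aff hq b).2 (Polynomial.isRoot_of_mem_roots hb)))
    conv_lhs => rw [← Polynomial.C_leadingCoeff_mul_prod_multiset_X_sub_C
      (p := deh q) IsAlgClosed.card_roots_eq_natDegree, h2]
    simp

theorem prop (hq : q.IsHomogeneous e) (hq' : q'.IsHomogeneous e) (a : PP 2)
    (h : ∀ b : PP 2, eval b.rep q = 0 → b = a) (h' : ∀ b : PP 2, eval b.rep q' = 0 → b = a) :
    ∃ c c' : ℂ, c ≠ 0 ∧ C c' * q - C c * q' = 0 := by
  obtain ⟨c, hc, h1, h2⟩ := shape hq a h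
  obtain ⟨c', -, h1', h2'⟩ := shape hq' a h'
  refine ⟨c, c', hc, deh_eq_zero ((hq.C_mul c').sub (hq'.C_mul c)) ?_⟩
  have : deh (C c' * q - C c * q') = Polynomial.C c' * deh q - Polynomial.C c * deh q' := by
    simp [deh]
  rw [this]
  rcases cases_pt a with ha | ⟨s, ha⟩
  · rw [h1 ha, h1' ha]; ring
  · rw [h2 s ha, h2' s ha]; ring

theorem comb (R : Fin 5 → Fin 3 → Prop) (h1 : ∀ j, ∃ i, R j i)
    (h2 : ∀ i j k l, R j i → R k i → R l i → j = k ∨ j = l ∨ k = l) :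
    ∃ j j' i, j ≠ j' ∧ (∀ i', R j i' → i' = i) ∧ (∀ i', R j' i' → i' = i) ∧
      ∃ k k' i', k ≠ k' ∧ k ≠ j ∧ k' ≠ j ∧ R k i' ∧ R k' i' := by
  classical
  choose g hg using h1
  have key : ∀ g : Fin 5 → Fin 3, (∀ j k l, g j = g k → g j = g l → j = k ∨ j = l ∨ k = l) →
      ∃ a b c d e : Fin 5, g a = g b ∧ g c = g d ∧ g a ≠ g e ∧ g c ≠ g e ∧ g a ≠ g c ∧
        a ≠ b ∧ c ≠ d := by
    decide +kernel
  obtain ⟨a, b, c, d, e, hab, hcd, hae, hce, hac, nab, ncd⟩ := key g fun j k l e1 e2 =>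
    h2 (g j) j k l (hg j) (e1 ▸ hg k) (e2 ▸ hg l)
  have hb : R b (g a) := hab ▸ hg b
  have hd : R d (g c) := hcd ▸ hg d
  have tri : ∀ i x y z : Fin 3, x ≠ z → y ≠ z → x ≠ y → i = x ∨ i = y ∨ i = z := by decide
  have nac : a ≠ c := fun h => hac (by rw [h])
  have nad : a ≠ d := fun h => hac (by rw [h, hcd])
  have nbc : b ≠ c := fun h => hac (by rw [hab, h])
  have nbd : b ≠ d := fun h => hac (by rw [hab, h, hcd])
  have nae : a ≠ e := fun h => hae (by rw [h])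
  have nbe : b ≠ e := fun h => hae (by rw [hab, h])
  have nce : c ≠ e := fun h => hce (by rw [h])
  have nde : d ≠ e := fun h => hce (by rw [hcd, h])
  have no : ∀ {i : Fin 3} {j k l : Fin 5}, R j i → R k i → R l i → j ≠ k → j ≠ l → k ≠ l → False :=
    fun p q r n1 n2 n3 => (h2 _ _ _ _ p q r).elim n1 fun h => h.elim n2 n3
  by_cases h : R a (g e) ∨ R b (g e)
  · refine ⟨c, d, g c, ncd, fun i hi => ?_, fun i hi => ?_, a, b, g a, nab, nac, nbc, hg a, hb⟩
    · rcases tri i _ _ _ hae hce hac with rfl | rfl | rfl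
      · exact (no (hg a) hb hi nab nac nbc).elim
      · rfl
      · rcases h with h | h
        · exact (no h hi (hg e) nac nae nce).elim
        · exact (no h hi (hg e) nbc nbe nce).elim
    · rcases tri i _ _ _ hae hce hac with rfl | rfl | rfl
      · exact (no (hg a) hb hi nab nad nbd).elim
      · rfl
      · rcases h with h | h
        · exact (no h hi (hg e) nad nae nde).elim
        · exact (no h hi (hg e) nbd nbe nde).elim
  · refine ⟨a, b, g a, nab, fun i hi => ?_, fun i hi => ?_, c, d, g c, ncd, nac.symm, nad.symm,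
      hg c, hd⟩
    · rcases tri i _ _ _ hae hce hac with rfl | rfl | rfl
      · rfl
      · exact (no hi (hg c) hd nac nad ncd).elim
      · exact (h (Or.inl hi)).elim
    · rcases tri i _ _ _ hae hce hac with rfl | rfl | rfl
      · rfl
      · exact (no hi (hg c) hd nbc nbd ncd).elim
      · exact (h (Or.inr hi)).elim

theorem result :
    ∃ P : Pair 3, (∀ j, mult P j = 2) ∧ WeaklyUniruled P ∧ ¬ Uniruled P (mMin P) := by
  classical
  refine ⟨ex5, mult_ex5, weak5, ?_⟩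
  rintro ⟨Z, hZ, hQ⟩
  have : ∀ i, ∃ g : MvPolynomial (Fin 3) ℂ, g ≠ 0 ∧ (∃ n, g.IsHomogeneous n) ∧
      ∀ x ∈ Z i, eval x.rep g = 0 := by
    intro i
    obtain ⟨h1, S, h2, h3⟩ := hZ i
    obtain ⟨x, hx⟩ := (Set.ne_univ_iff_exists_notMem _).1 h1
    rw [h3] at hx
    simp only [Set.mem_ofPred_eq, not_forall] at hx
    obtain ⟨g, hg, hgx⟩ := hx
    refine ⟨g, ?_, h2 g hg, fun y hy => ?_⟩
    · rintro rfl; simp at hgx
    · rw [h3] at hy; exact hy g hg
  choose G hG0 hGh hGz using this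
  obtain ⟨x, hx1, hx2, hx3⟩ := good_point G hG0
  have hx0 : x ≠ 0 := by
    rintro rfl
    simp at hx2
  obtain ⟨u, hu⟩ := Projectivization.exists_smul_eq_mk_rep ℂ x hx0
  obtain ⟨f, ⟨a, ha⟩, -, hsum⟩ := hQ (Projectivization.mk ℂ x hx0) (by
    intro i hi
    have h1 := hGz i _ hi
    obtain ⟨n, hn⟩ := hGh i
    rw [← hu, Units.smul_def, eval_smul_hom hn] at h1
    simp [hx1 i] at h1)
  set T := {a : PP 2 // ∃ j, eval (pt f a).rep (ex5.G j) = 0} with hT
  have hge : ∀ t : T, (2⁻¹ : ℝ≥0∞) ≤ 1 - (mMin ex5 f t)⁻¹ := by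
    intro t
    rw [← ENNReal.one_sub_inv_two]
    refine tsub_le_tsub_left (ENNReal.inv_le_inv.2 (le_iInf₂ fun i hi => ?_)) _
    have h1 : 1 ≤ ord ex5 f t i := Nat.succ_le_of_lt (dvd_iff_multiplicity_pos.2
      (lin_dvd' (e_pos f) (lnh f ((i : Fin 5) : ℕ)) t ((on_iff f t _).1 hi)))
    have h2 : (1 : ℝ≥0∞) ≤ (ord ex5 f t i : ℝ≥0∞) := by exact_mod_cast h1
    rw [mult_ex5]
    calc (2 : ℝ≥0∞) = 1 * 2 := (one_mul _).symm
      _ ≤ _ := by gcongr
  have hcard : ∀ S : Finset T, S.card ≤ 3 := by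
    intro S
    by_contra hS
    refine absurd hsum (not_lt.2 (le_trans ?_ (ENNReal.sum_le_tsum S)))
    refine le_trans ?_ (Finset.card_nsmul_le_sum S _ _ fun t _ => hge t)
    rw [nsmul_eq_mul]
    calc (2 : ℝ≥0∞) = 4 * 2⁻¹ := by
          rw [show (4 : ℝ≥0∞) = 2 * 2 by norm_num, mul_assoc,
            ENNReal.mul_inv_cancel (by norm_num) (by norm_num), mul_one]
      _ ≤ S.card * 2⁻¹ := by
          gcongr
          exact_mod_cast (by omega : 4 ≤ S.card)
  have hfin : Finite T := by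
    by_contra hinf
    have : Infinite T := not_finite_iff_infinite.1 hinf
    obtain ⟨S, hS⟩ := Infinite.exists_subset_card_eq T 4
    have := hcard S
    omega
  have := Fintype.ofFinite T
  obtain ⟨φ⟩ : Nonempty (T ↪ Fin 3) :=
    Function.Embedding.nonempty_of_card_le (by simpa using hcard Finset.univ)
  obtain ⟨j, j', i, hjj, hj, hj', k, k', i', hkk, hkj, hk'j, hk, hk'⟩ :=
    comb (fun j i => ∃ t : T, φ t = i ∧ eval (pt f t).rep (ln (j : ℕ)) = 0)
      (fun j => by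
        obtain ⟨b, hb⟩ := exists_zero (e_pos f) (lnh f (j : ℕ))
        have hb' := (on_iff f b _).2 hb
        exact ⟨φ ⟨b, j, hb'⟩, _, rfl, hb'⟩)
      (fun i j k l hj hk hl => by
        obtain ⟨t1, rfl, h1⟩ := hj
        obtain ⟨t2, e2, h2⟩ := hk
        obtain ⟨t3, e3, h3⟩ := hl
        obtain rfl := φ.injective e2
        obtain rfl := φ.injective e3
        by_contra hne
        push Not at hne
        exact three _ hne.1 hne.2.1 hne.2.2 h1 h2 h3)
  obtain ⟨b, hb⟩ := exists_zero (e_pos f) (lnh f (j : ℕ))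
  have hb1 := (on_iff f b _).2 hb
  have huniq : ∀ l : Fin 5, (∀ i', (∃ t : T, φ t = i' ∧
      eval (pt f t).rep (ln (l : ℕ)) = 0) → i' = i) →
      ∀ b' : PP 2, eval b'.rep (aeval f.F (ln (l : ℕ))) = 0 → b' = b := by
    intro l hl b' hb'
    have hb2 := (on_iff f b' _).2 hb'
    have e1 := hj (φ ⟨b, j, hb1⟩) ⟨_, rfl, hb1⟩
    have e2 := hl (φ ⟨b', l, hb2⟩) ⟨_, rfl, hb2⟩
    exact congrArg Subtype.val (φ.injective (e2.trans e1.symm))
  obtain ⟨c, c', hc, hlin⟩ := prop (lnh f (j : ℕ)) (lnh f (j' : ℕ)) b (huniq j hj) (huniq j' hj')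
  have hl : ∀ y : PP 2, c' * eval (pt f y).rep (ln (j : ℕ)) =
      c * eval (pt f y).rep (ln (j' : ℕ)) := by
    intro y
    obtain ⟨κ, hκ, h⟩ := pt_rep f y
    have h1 := congrArg (eval y.rep) hlin
    rw [ln_aeval, ln_aeval] at h1
    simp only [map_sub, map_mul, map_add, eval_C, map_zero] at h1
    rw [ln_eval, ln_eval, h 0, h 1, h 2]
    linear_combination κ * h1
  obtain ⟨t, rfl, ht⟩ := hk
  obtain ⟨t', e2, ht'⟩ := hk'
  obtain rfl := φ.injective e2
  have hy := hl t'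
  have hxl := hl a
  rw [ha, ← hu, Units.smul_def, eval_smul_hom (ln_hom _), eval_smul_hom (ln_hom _), ln_eval,
    ln_eval] at hxl
  have hne := rep_ne (pt f t')
  rw [ln_eval] at ht ht'
  rw [ln_eval, ln_eval] at hy
  generalize (pt f t').rep = y at ht ht' hy hne
  have n1 : ((k : ℕ) : ℂ) - (k' : ℕ) ≠ 0 := sub_ne_zero.2 fun h => hkk (cinj h)
  have q1 : y 1 = -(((k : ℕ) : ℂ) + (k' : ℕ)) * y 2 := by
    apply mul_left_cancel₀ n1
    linear_combination ht - ht'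
  have q0 : y 0 = ((k : ℕ) : ℂ) * (k' : ℕ) * y 2 := by
    linear_combination ht - ((k : ℕ) : ℂ) * q1
  have q2 : y 2 ≠ 0 := fun h => hne ⟨by rw [q0, h, mul_zero], by rw [q1, h, mul_zero], h⟩
  set α : ℤ := ((j : ℕ) - (k : ℕ)) * ((j : ℕ) - (k' : ℕ)) with hα
  set β : ℤ := ((j' : ℕ) - (k : ℕ)) * ((j' : ℕ) - (k' : ℕ)) with hβ
  have q3 : c' * α = c * β := by
    apply mul_left_cancel₀ q2
    rw [q0, q1] at hy
    push_cast [hα, hβ]
    linear_combination hy
  have q4 : c' * (x 0 + (j : ℕ) * x 1 + ((j : ℕ) : ℂ) ^ 2 * x 2) =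
      c * (x 0 + (j' : ℕ) * x 1 + ((j' : ℕ) : ℂ) ^ 2 * x 2) := by
    apply mul_left_cancel₀ u.ne_zero
    linear_combination hxl
  obtain ⟨z0, z1, -⟩ := hx3 (β - α) (β * (j : ℕ) - α * (j' : ℕ))
    (β * ((j : ℕ) : ℤ) ^ 2 - α * ((j' : ℕ) : ℤ) ^ 2) (by
      apply mul_left_cancel₀ hc
      push_cast
      linear_combination (α : ℂ) * q4 - (x 0 + (j : ℕ) * x 1 + ((j : ℕ) : ℂ) ^ 2 * x 2) * q3)
  have z2 : α * (((j : ℕ) : ℤ) - (j' : ℕ)) = 0 := by linear_combination z1 - ((j : ℕ) : ℤ) * z0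
  have ne : ∀ {r s : Fin 5}, r ≠ s → ((r : ℕ) : ℤ) - (s : ℕ) ≠ 0 := fun h h' =>
    h (Fin.ext (by omega))
  exact mul_ne_zero (mul_ne_zero (ne hkj.symm) (ne hk'j.symm)) (ne hjj) z2

end Pool.Agent.Results.MP_4be736_ag.IntegralMin
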